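import Mathlib

set_option autoImplicit false

/-!
# A generic family of `ω₁` points of `2^{ω₁}`
-/

namespace Pool.Agent.H916R3.HFC

open Set Topology Filter

/-- Finite sets of conditions `x i = b` on a point `x` of `I → Bool`. -/
abbrev Fp (I : Type) : Type := Finset (I × Bool)

variable {I : Type}

/-- `x` satisfies the conditions in `σ`. -/
def Sat (σ : Fp I) (x : I → Bool) : Prop := ∀ p ∈ σ, x p.1 = p.2

/-- `σ` is consistent. -/
def Cons (σ : Fp I) : Prop := ∃ x : I → Bool, Sat σ x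

/-- The members of the sequence `s` are consistent and have pairwise disjoint domains. -/
def Disj (s : ℕ → Fp I) : Prop :=
  (∀ k, Cons (s k)) ∧ ∀ k l, k ≠ l → ∀ p ∈ s k, ∀ q ∈ s l, p.1 ≠ q.1

/-- The union of the basic sets of the members of `s` is dense. -/
def DenseSeq (s : ℕ → Fp I) : Prop :=
  ∀ τ : Fp I, Cons τ → ∃ k, ∃ x : I → Bool, Sat τ x ∧ Sat (s k) x

theorem Sat.mono {σ τ : Fp I} {x : I → Bool} (h : Sat τ x) (hs : σ ⊆ τ) : Sat σ x :=
  fun p hp => h p (hs hp)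

theorem isOpen_sat (σ : Fp I) : IsOpen {x : I → Bool | Sat σ x} := by
  have h : {x : I → Bool | Sat σ x} = ⋂ p ∈ σ, {x : I → Bool | x p.1 = p.2} := by
    ext x
    simp [Sat]
  rw [h]
  refine isOpen_biInter_finset fun p _ => ?_
  have hcont : Continuous (fun x : I → Bool => x p.1) := continuous_apply _
  exact (isOpen_discrete ({p.2} : Set Bool)).preimage hcont

theorem exists_sat_of_open {U : Set (I → Bool)} (hU : IsOpen U) {x : I → Bool} (hx : x ∈ U) :
    ∃ τ : Fp I, Sat τ x ∧ ∀ y, Sat τ y → y ∈ U := by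
  classical
  rw [isOpen_pi_iff] at hU
  obtain ⟨F, u, hu, hsub⟩ := hU x hx
  refine ⟨F.image fun i => (i, x i), ?_, ?_⟩
  · intro p hp
    obtain ⟨i, _, rfl⟩ := Finset.mem_image.1 hp
    rfl
  · intro y hy
    apply hsub
    intro i hi
    have h1 : y i = x i := hy (i, x i) (Finset.mem_image.2 ⟨i, hi, rfl⟩)
    rw [h1]
    exact (hu i hi).2

theorem dense_of_sat {U : Set (I → Bool)}
    (h : ∀ τ : Fp I, Cons τ → ∃ x, Sat τ x ∧ x ∈ U) : Dense U := by
  rw [dense_iff_inter_open]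
  rintro V hV ⟨x, hx⟩
  obtain ⟨τ, hτ, hsub⟩ := exists_sat_of_open hV hx
  obtain ⟨y, hy, hyU⟩ := h τ ⟨x, hτ⟩
  exact ⟨y, hsub y hy, hyU⟩

/-- If the domains of the `s k` are disjoint, infinitely many `s k` are compatible with `τ`. -/
theorem exists_compat {s : ℕ → Fp I} (hs : Disj s) {K : Set ℕ} (hK : K.Infinite) (j : ℕ)
    {τ : Fp I} (hτ : Cons τ) : ∃ k ∈ K, j ≤ k ∧ ∃ x, Sat τ x ∧ Sat (s k) x := by
  classical
  -- the set of `k` such that the domain of `s k` meets the domain of `τ` is finite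
  have hfin : {k | ∃ p ∈ s k, ∃ q ∈ τ, p.1 = q.1}.Finite := by
    have hsub : {k | ∃ p ∈ s k, ∃ q ∈ τ, p.1 = q.1}
        ⊆ ⋃ q ∈ τ, {k | ∃ p ∈ s k, p.1 = q.1} := by
      rintro k ⟨p, hp, q, hq, h⟩
      simp only [mem_iUnion]
      exact ⟨q, hq, p, hp, h⟩
    refine Set.Finite.subset ?_ hsub
    refine Set.Finite.biUnion (Finset.finite_toSet τ) fun q _ => ?_
    refine Set.Subsingleton.finite ?_
    rintro k ⟨p, hp, h⟩ l ⟨p', hp', h'⟩
    by_contra hkl
    exact hs.2 k l hkl p hp p' hp' (h.trans h'.symm)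
  have hinf : (K \ ({k | ∃ p ∈ s k, ∃ q ∈ τ, p.1 = q.1} ∪ Set.Iio j)).Infinite :=
    hK.sdiff (hfin.union (Set.finite_Iio j))
  obtain ⟨k, hkK, hk⟩ := hinf.nonempty
  have hk1 : ¬ ∃ p ∈ s k, ∃ q ∈ τ, p.1 = q.1 := fun h => hk (Or.inl h)
  have hk2 : j ≤ k := by
    by_contra h
    exact hk (Or.inr (not_le.1 h))
  obtain ⟨y, hy⟩ := hτ
  obtain ⟨z, hz⟩ := hs.1 k
  refine ⟨k, hkK, hk2, fun i => if (∃ q ∈ τ, i = q.1) then y i else z i, ?_, ?_⟩
  · intro q hq
    have : ∃ q' ∈ τ, q.1 = q'.1 := ⟨q, hq, rfl⟩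
    simp only [this, if_true]
    exact hy q hq
  · intro p hp
    have : ¬ ∃ q' ∈ τ, p.1 = q'.1 := fun ⟨q', hq', h⟩ => hk1 ⟨p, hp, q', hq', h⟩
    simp only [this, if_false]
    exact hz p hp

variable [LinearOrder I]

/-- The requirements on the point number `α`, given the points `y β`, `β < α`. -/
structure Good (e : I → ℕ → Fp I) (α : I) (y : I → I → Bool) (z : I → Bool) : Prop where
  one : ∀ L : Finset (I × I), (∀ p ∈ L, p.1 < α ∧ p.2 < α) →
    {k | ∀ p ∈ L, Sat (e p.2 k) (y p.1)}.Infinite → ∀ β < α, Disj (e β) →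
    {k | (∀ p ∈ L, Sat (e p.2 k) (y p.1)) ∧ Sat (e β k) z}.Infinite
  two : ∀ β < α, DenseSeq (e β) → ∃ k, Sat (e β k) z
  three : Cons (e α 0) → Sat (e α 0) z

theorem Good.congr {e : I → ℕ → Fp I} {α : I} {y y' : I → I → Bool} {z : I → Bool}
    (h : Good e α y z) (hy : ∀ β < α, y β = y' β) : Good e α y' z := by
  have key : ∀ L : Finset (I × I), (∀ p ∈ L, p.1 < α ∧ p.2 < α) → ∀ k : ℕ,
      ((∀ p ∈ L, Sat (e p.2 k) (y' p.1)) ↔ ∀ p ∈ L, Sat (e p.2 k) (y p.1)) := by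
    intro L hL k
    refine forall₂_congr fun p hp => ?_
    rw [hy p.1 (hL p hp).1]
  refine ⟨fun L hL hK β hβ hd => ?_, h.two, h.three⟩
  simp only [key L hL] at hK ⊢
  exact h.one L hL hK β hβ hd

theorem exists_good (e : I → ℕ → Fp I) (α : I) (hα : (Set.Iio α).Countable)
    (y : I → I → Bool) : ∃ z, Good e α y z := by
  classical
  have hcA : Countable (Set.Iio α) := hα
  let A : Type := Set.Iio α
  let KK : Finset (A × A) → Set ℕ := fun L => {k | ∀ p ∈ L, Sat (e p.2 k) (y p.1)}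
  let U1 : (Finset (A × A) × A × ℕ) → Set (I → Bool) := fun q =>
    {x | (KK q.1).Infinite → Disj (e q.2.1) →
      ∃ k, q.2.2 ≤ k ∧ k ∈ KK q.1 ∧ Sat (e q.2.1 k) x}
  let U2 : A → Set (I → Bool) := fun β => {x | DenseSeq (e β) → ∃ k, Sat (e β k) x}
  have hU1o : ∀ q, IsOpen (U1 q) := by
    intro q
    by_cases h1 : (KK q.1).Infinite
    · by_cases h2 : Disj (e q.2.1)
      · have : U1 q = ⋃ k ∈ {k | q.2.2 ≤ k ∧ k ∈ KK q.1}, {x | Sat (e q.2.1 k) x} := by
          ext x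
          simp only [U1, mem_ofPred_eq, h1, h2, forall_true_left, mem_iUnion, exists_prop]
          constructor
          · rintro ⟨k, a, b, c⟩; exact ⟨k, ⟨a, b⟩, c⟩
          · rintro ⟨k, ⟨a, b⟩, c⟩; exact ⟨k, a, b, c⟩
        rw [this]
        exact isOpen_biUnion fun k _ => isOpen_sat _
      · have : U1 q = Set.univ := by
          ext x; simp [U1, h2]
        rw [this]; exact isOpen_univ
    · have : U1 q = Set.univ := by
        ext x; simp [U1, h1]
      rw [this]; exact isOpen_univ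
  have hU1d : ∀ q, Dense (U1 q) := by
    intro q
    refine dense_of_sat fun τ hτ => ?_
    by_cases h1 : (KK q.1).Infinite
    · by_cases h2 : Disj (e q.2.1)
      · obtain ⟨k, hk, hj, x, hx1, hx2⟩ := exists_compat h2 h1 q.2.2 hτ
        exact ⟨x, hx1, fun _ _ => ⟨k, hj, hk, hx2⟩⟩
      · obtain ⟨x, hx⟩ := hτ
        exact ⟨x, hx, fun _ h => absurd h h2⟩
    · obtain ⟨x, hx⟩ := hτ
      exact ⟨x, hx, fun h => absurd h h1⟩
  have hU2o : ∀ β, IsOpen (U2 β) := by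
    intro β
    by_cases h2 : DenseSeq (e β)
    · have : U2 β = ⋃ k, {x | Sat (e β k) x} := by
        ext x; simp [U2, h2]
      rw [this]
      exact isOpen_iUnion fun k => isOpen_sat _
    · have : U2 β = Set.univ := by
        ext x; simp [U2, h2]
      rw [this]; exact isOpen_univ
  have hU2d : ∀ β, Dense (U2 β) := by
    intro β
    refine dense_of_sat fun τ hτ => ?_
    by_cases h2 : DenseSeq (e β)
    · obtain ⟨k, x, hx1, hx2⟩ := h2 τ hτ
      exact ⟨x, hx1, fun _ => ⟨k, hx2⟩⟩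
    · obtain ⟨x, hx⟩ := hτ
      exact ⟨x, hx, fun h => absurd h h2⟩
  have hd1 : Dense (⋂ q, U1 q) := dense_iInter_of_isOpen hU1o hU1d
  have hd : Dense (⋂ t : (Finset (A × A) × A × ℕ) ⊕ A, Sum.elim U1 U2 t) := by
    refine dense_iInter_of_isOpen ?_ ?_
    · rintro (q | β)
      · exact hU1o q
      · exact hU2o β
    · rintro (q | β)
      · exact hU1d q
      · exact hU2d β
  obtain ⟨z, hz3, hz⟩ : ∃ z : I → Bool, (Cons (e α 0) → Sat (e α 0) z) ∧
      z ∈ ⋂ t : (Finset (A × A) × A × ℕ) ⊕ A, Sum.elim U1 U2 t := by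
    by_cases h : Cons (e α 0)
    · obtain ⟨z, hz1, hz2⟩ := hd.inter_open_nonempty _ (isOpen_sat (e α 0)) h
      exact ⟨z, fun _ => hz1, hz2⟩
    · obtain ⟨z, hz⟩ := hd.nonempty
      exact ⟨z, fun h' => absurd h' h, hz⟩
  rw [mem_iInter] at hz
  refine ⟨z, ⟨?_, ?_, hz3⟩⟩
  · intro L hL hK β hβ hdj
    -- transfer `L` to a finite subset of `A × A`
    let L' : Finset (A × A) := (L.attach).image fun p =>
      (⟨p.1.1, (hL p.1 p.2).1⟩, ⟨p.1.2, (hL p.1 p.2).2⟩)
    have hKK : KK L' = {k | ∀ p ∈ L, Sat (e p.2 k) (y p.1)} := by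
      ext k
      simp only [KK, mem_ofPred_eq]
      constructor
      · intro h p hp
        have := h (⟨p.1, (hL p hp).1⟩, ⟨p.2, (hL p hp).2⟩)
          (Finset.mem_image.2 ⟨⟨p, hp⟩, Finset.mem_attach _ _, rfl⟩)
        exact this
      · intro h p hp
        obtain ⟨q, _, rfl⟩ := Finset.mem_image.1 hp
        exact h q.1 q.2
    rw [← hKK] at hK
    rw [Set.infinite_iff_exists_gt] 
    intro j
    have h1 := hz (Sum.inl (L', ⟨β, hβ⟩, j + 1))
    obtain ⟨k, hk1, hk2, hk3⟩ := h1 hK hdj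
    refine ⟨k, ⟨?_, hk3⟩, hk1⟩
    have : k ∈ {k | ∀ p ∈ L, Sat (e p.2 k) (y p.1)} := hKK ▸ hk2
    exact this
  · intro β hβ hden
    exact hz (Sum.inr ⟨β, hβ⟩) hden

variable [WellFoundedLT I]

/-- Recursion along `I`. -/
theorem exists_seq {T : Type*} (P : Set T → T → Prop) (hc : ∀ a : I, (Set.Iio a).Countable)
    (h : ∀ C : Set T, C.Countable → ∃ a, P C a) :
    ∃ g : I → T, ∀ ξ, P (g '' Set.Iio ξ) (g ξ) := by
  classical
  have hr : ∀ (ξ : I) (r : (η : I) → η < ξ → T),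
      ∃ a, P (Set.range fun η : Set.Iio ξ => r η.1 η.2) a := by
    intro ξ r
    have : Countable (Set.Iio ξ) := hc ξ
    exact h _ (Set.countable_range _)
  choose F hF using hr
  let wf : WellFounded (fun a b : I => a < b) := IsWellFounded.wf
  let g : I → T := wf.fix (C := fun _ => T) F
  refine ⟨g, fun ξ => ?_⟩
  have h1 : g ξ = F ξ (fun η _ => g η) := wf.fix_eq (C := fun _ => T) F ξ
  have h2 := hF ξ (fun η _ => g η)
  rw [← h1] at h2
  have h3 : (Set.range fun η : Set.Iio ξ => g η.1) = g '' Set.Iio ξ := by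
    ext t
    simp
  rw [h3] at h2
  exact h2

/-- The properties of the generic family. -/
structure Fam (e : I → ℕ → Fp I) (x : I → I → Bool) : Prop where
  one : ∀ α, ∀ L : Finset (I × I), (∀ p ∈ L, p.1 < α ∧ p.2 < α) →
    {k | ∀ p ∈ L, Sat (e p.2 k) (x p.1)}.Infinite → ∀ β < α, Disj (e β) →
    (∀ k, ∀ p ∈ e β k, p.1 < α) →
    {k | (∀ p ∈ L, Sat (e p.2 k) (x p.1)) ∧ Sat (e β k) (x α)}.Infinite
  two : ∀ α, ∀ β < α, DenseSeq (e β) → (∀ k, ∀ p ∈ e β k, p.1 < α) → ∃ k, Sat (e β k) (x α)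
  three : ∀ α, Cons (e α 0) → (∀ p ∈ e α 0, p.1 < α) → Sat (e α 0) (x α)
  four : ∀ α i, α ≤ i → x α i = false

theorem exists_fam (hc : ∀ a : I, (Set.Iio a).Countable) (e : I → ℕ → Fp I) :
    ∃ x : I → I → Bool, Fam e x := by
  classical
  let md : I → (I → Bool) → (I → Bool) := fun α z i => if i < α then z i else false
  have hmd : ∀ (α : I) (z : I → Bool) (σ : Fp I), (∀ p ∈ σ, p.1 < α) → Sat σ z →
      Sat σ (md α z) := by
    intro α z σ hσ h p hp
    simp only [md, hσ p hp, if_true]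
    exact h p hp
  have hr : ∀ (α : I) (r : (η : I) → η < α → (I → Bool)),
      ∃ w : I → Bool, ∃ z, w = md α z ∧
        Good e α (fun β => if h : β < α then r β h else fun _ => false) z := by
    intro α r
    obtain ⟨z, hz⟩ := exists_good e α (hc α)
      (fun β => if h : β < α then r β h else fun _ => false)
    exact ⟨_, z, rfl, hz⟩
  choose F hF using hr
  let wf : WellFounded (fun a b : I => a < b) := IsWellFounded.wf
  let x : I → (I → Bool) := wf.fix (C := fun _ => I → Bool) F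
  have hx : ∀ α, ∃ z, x α = md α z ∧ Good e α x z := by
    intro α
    have h1 : x α = F α (fun η _ => x η) := wf.fix_eq (C := fun _ => I → Bool) F α
    obtain ⟨z, hz1, hz2⟩ := hF α (fun η _ => x η)
    refine ⟨z, h1.trans hz1, hz2.congr ?_⟩
    intro β hβ
    simp [hβ]
  refine ⟨x, ⟨?_, ?_, ?_, ?_⟩⟩
  · intro α L hL hK β hβ hd hb
    obtain ⟨z, hz1, hz2⟩ := hx α
    refine (hz2.one L hL hK β hβ hd).mono ?_
    rintro k ⟨h1, h2⟩
    refine ⟨h1, ?_⟩
    rw [hz1]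
    exact hmd α z _ (hb k) h2
  · intro α β hβ hd hb
    obtain ⟨z, hz1, hz2⟩ := hx α
    obtain ⟨k, hk⟩ := hz2.two β hβ hd
    exact ⟨k, hz1 ▸ hmd α z _ (hb k) hk⟩
  · intro α hcs hb
    obtain ⟨z, hz1, hz2⟩ := hx α
    exact hz1 ▸ hmd α z _ hb (hz2.three hcs)
  · intro α i hi
    obtain ⟨z, hz1, _⟩ := hx α
    rw [hz1]
    simp [md, not_lt.2 hi]

end Pool.Agent.H916R3.HFC
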