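import Mathlib
import Pool.Agent.H916R3.HFC.Family
import Pool.Agent.H916R3.HFC.Delta

set_option autoImplicit false

/-!
# All finite powers of the generic family are hereditarily Lindelöf (combinatorial form)
-/

namespace Pool.Agent.H916R3.HFC

open Set Topology Filter

variable {I : Type} [LinearOrder I]

/-- Countable sets are bounded. -/
theorem bdd_of_countable (hc : ∀ a : I, (Set.Iio a).Countable) (hI : ¬ (Set.univ : Set I).Countable)
    {C : Set I} (hC : C.Countable) : ∃ γ, ∀ c ∈ C, c < γ := by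
  by_contra h
  push Not at h
  apply hI
  have hsub : (Set.univ : Set I) ⊆ ⋃ c ∈ C, Set.Iic c := by
    intro γ _
    obtain ⟨c, hcC, hle⟩ := h γ
    simp only [mem_iUnion]
    exact ⟨c, hcC, hle⟩
  refine Set.Countable.mono hsub (hC.biUnion fun c _ => ?_)
  rw [← Set.Iio_insert]
  exact (hc c).insert c

theorem countable_Iic (hc : ∀ a : I, (Set.Iio a).Countable) (c : I) : (Set.Iic c).Countable := by
  rw [← Set.Iio_insert]
  exact (hc c).insert c

/-- Mutual genericity of finitely many members of the family. -/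
theorem Fam.many {e : I → ℕ → Fp I} {x : I → I → Bool} (hx : Fam e x) (γ : I)
    (a b : ℕ → I) (J : Finset ℕ) :
    Set.InjOn a J → (∀ i ∈ J, γ ≤ a i) → (∀ i ∈ J, b i < γ) → (∀ i ∈ J, Disj (e (b i))) →
    (∀ i ∈ J, ∀ k, ∀ p ∈ e (b i) k, p.1 < γ) →
    {k | ∀ i ∈ J, Sat (e (b i) k) (x (a i))}.Infinite := by
  classical
  refine Finset.induction_on_max_value a J ?_ ?_
  · intro _ _ _ _ _
    simpa using Set.infinite_univ
  · intro i s his hmax ih hinj hγ hb hd hdom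
    have hsub : ∀ j ∈ s, j ∈ insert i s := fun j hj => Finset.mem_insert_of_mem hj
    have hi : i ∈ insert i s := Finset.mem_insert_self i s
    have ih' := ih (fun j hj l hl h => hinj (by exact_mod_cast hsub j hj)
        (by exact_mod_cast hsub l hl) h)
      (fun j hj => hγ j (hsub j hj)) (fun j hj => hb j (hsub j hj))
      (fun j hj => hd j (hsub j hj)) (fun j hj => hdom j (hsub j hj))
    have hlt : ∀ j ∈ s, a j < a i := by
      intro j hj
      refine lt_of_le_of_ne (hmax j hj) fun h => ?_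
      have : j = i := hinj (by exact_mod_cast hsub j hj) (by exact_mod_cast hi) h
      exact his (this ▸ hj)
    let L : Finset (I × I) := s.image fun j => (a j, b j)
    have hL : ∀ k : ℕ, (∀ p ∈ L, Sat (e p.2 k) (x p.1)) ↔ ∀ j ∈ s, Sat (e (b j) k) (x (a j)) := by
      intro k
      constructor
      · intro h j hj
        exact h (a j, b j) (Finset.mem_image.2 ⟨j, hj, rfl⟩)
      · intro h p hp
        obtain ⟨j, hj, rfl⟩ := Finset.mem_image.1 hp
        exact h j hj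
    have h1 := hx.one (a i) L (by
      intro p hp
      obtain ⟨j, hj, rfl⟩ := Finset.mem_image.1 hp
      exact ⟨hlt j hj, lt_of_lt_of_le (hb j (hsub j hj)) (hγ i hi)⟩) (by
      simpa only [hL] using ih') (b i) (lt_of_lt_of_le (hb i hi) (hγ i hi)) (hd i hi)
      (fun k p hp => lt_of_lt_of_le (hdom i hi k p hp) (hγ i hi))
    refine h1.mono ?_
    rintro k ⟨hk1, hk2⟩ j hj
    rcases Finset.mem_insert.1 hj with rfl | hj
    · exact hk2
    · exact (hL k).1 hk1 j hj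

/-- The combinatorial core: no right separated uncountable sequence of finite tuples. -/
theorem Fam.core {e : I → ℕ → Fp I} {x : I → I → Bool} (hx : Fam e x)
    (hc : ∀ a : I, (Set.Iio a).Countable) (hI : ¬ (Set.univ : Set I).Countable)
    (he : ∀ s : ℕ → Fp I, ∃ β, e β = s)
    (T : Finset ℕ) (a : I → ℕ → I) (σ : I → ℕ → Fp I) (J : Set I) (hJ : ¬ J.Countable)
    (hinj : ∀ ξ ∈ J, Set.InjOn (a ξ) T) (hsat : ∀ ξ ∈ J, ∀ i ∈ T, Sat (σ ξ i) (x (a ξ i))) :
    ∃ η ∈ J, ∃ ξ ∈ J, η < ξ ∧ ∀ i ∈ T, Sat (σ η i) (x (a ξ i)) := by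
  classical
  -- step 1: constant coordinates
  obtain ⟨S, J1, hST, hJ1J, hJ1, hconst, hfib⟩ : ∃ (S : Finset ℕ) (J1 : Set I), S ⊆ T ∧ J1 ⊆ J ∧
      ¬ J1.Countable ∧ (∀ i ∈ S, ∃ c, ∀ ξ ∈ J1, a ξ i = c) ∧
      ∀ i ∈ T, i ∉ S → ∀ c, {ξ ∈ J1 | a ξ i = c}.Countable := by
    let P : Finset ℕ → Prop := fun S => ∃ J1 : Set I, J1 ⊆ J ∧ ¬ J1.Countable ∧
      ∀ i ∈ S, ∃ c, ∀ ξ ∈ J1, a ξ i = c
    have hne : (T.powerset.filter P).Nonempty := by
      refine ⟨∅, Finset.mem_filter.2 ⟨Finset.empty_mem_powerset _, J, le_refl _, hJ, ?_⟩⟩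
      intro i hi
      exact absurd hi (Finset.notMem_empty i)
    obtain ⟨S, hS, hmax⟩ := Finset.exists_max_image _ Finset.card hne
    rw [Finset.mem_filter, Finset.mem_powerset] at hS
    obtain ⟨hST, J1, hJ1J, hJ1, hconst⟩ := hS
    refine ⟨S, J1, hST, hJ1J, hJ1, hconst, ?_⟩
    intro i hiT hiS c
    by_contra hcon
    have hP : P (insert i S) := by
      refine ⟨{ξ ∈ J1 | a ξ i = c}, fun ξ hξ => hJ1J hξ.1, hcon, ?_⟩
      intro j hj
      rcases Finset.mem_insert.1 hj with rfl | hj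
      · exact ⟨c, fun ξ hξ => hξ.2⟩
      · obtain ⟨d, hd⟩ := hconst j hj
        exact ⟨d, fun ξ hξ => hd ξ hξ.1⟩
    have hle := hmax (insert i S) (Finset.mem_filter.2 ⟨Finset.mem_powerset.2
      (Finset.insert_subset hiT hST), hP⟩)
    rw [Finset.card_insert_of_notMem hiS] at hle
    omega
  -- step 2: delta system
  let D : I → Finset I := fun ξ => T.biUnion fun i => (σ ξ i).image Prod.fst
  obtain ⟨J2, R, hJ2J, hJ2, -, hΔ⟩ := delta_system D J1 hJ1
  have hDmem : ∀ ξ, ∀ i ∈ T, ∀ p ∈ σ ξ i, p.1 ∈ D ξ := by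
    intro ξ i hi p hp
    exact Finset.mem_biUnion.2 ⟨i, hi, Finset.mem_image.2 ⟨p, hp, rfl⟩⟩
  -- step 3: the part over the root is constant
  let rt : I → (T → Finset (R × Bool)) := fun ξ i =>
    Finset.univ.filter fun q => (q.1.1, q.2) ∈ σ ξ i
  obtain ⟨ρ, hρ⟩ := uncountable_fiber rt J2 hJ2
  set J3 : Set I := {ξ ∈ J2 | rt ξ = ρ} with hJ3
  have hroot : ∀ η ∈ J3, ∀ ξ ∈ J3, ∀ i ∈ T, ∀ p ∈ σ η i, p.1 ∈ R → p ∈ σ ξ i := by
    intro η hη ξ hξ i hi p hp hpR
    have h1 : rt η = rt ξ := hη.2.trans hξ.2.symm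
    have h2 : ((⟨p.1, hpR⟩ : R), p.2) ∈ rt η ⟨i, hi⟩ := by
      simp only [rt, Finset.mem_filter, Finset.mem_univ, true_and]
      exact hp
    rw [h1] at h2
    simp only [rt, Finset.mem_filter, Finset.mem_univ, true_and] at h2
    exact h2
  -- step 4: a sequence
  have hJ3inf : J3.Infinite := fun h => hρ h.countable
  let η : ℕ → I := fun k => (hJ3inf.natEmbedding J3 k : J3).1
  have hηJ : ∀ k, η k ∈ J3 := fun k => (hJ3inf.natEmbedding J3 k).2
  have hηinj : Function.Injective η := fun k l h =>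
    (hJ3inf.natEmbedding J3).injective (Subtype.ext h)
  let s : ℕ → ℕ → Fp I := fun i k => (σ (η k) i).filter fun p => p.1 ∉ R
  choose b hb using fun i => he (s i)
  -- bound
  have hcount : (Set.range η ∪ (⋃ i : ℕ, ⋃ k : ℕ, Prod.fst '' (↑(s i k) : Set (I × Bool)))
      ∪ Set.range b).Countable := by
    refine ((Set.countable_range η).union ?_).union (Set.countable_range b)
    refine Set.countable_iUnion fun i => Set.countable_iUnion fun k => ?_
    exact ((s i k).countable_toSet).image _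
  obtain ⟨γ, hγ⟩ := bdd_of_countable hc hI hcount
  have hJsmall : {ξ ∈ J3 | ξ < γ ∨ ∃ i ∈ T, i ∉ S ∧ a ξ i < γ}.Countable := by
    have hsub : {ξ ∈ J3 | ξ < γ ∨ ∃ i ∈ T, i ∉ S ∧ a ξ i < γ} ⊆
        Set.Iio γ ∪ ⋃ i ∈ {i | i ∈ T ∧ i ∉ S}, ⋃ c ∈ Set.Iio γ, {ξ ∈ J1 | a ξ i = c} := by
      rintro ξ ⟨hξ, h | ⟨i, hiT, hiS, h⟩⟩
      · exact Or.inl h
      · right
        simp only [mem_iUnion]
        exact ⟨i, ⟨hiT, hiS⟩, a ξ i, h, hJ2J hξ.1, rfl⟩
    refine Set.Countable.mono hsub ((hc γ).union ?_)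
    refine (Set.to_countable _).biUnion fun i hi => (hc γ).biUnion fun c _ => ?_
    exact hfib i hi.1 hi.2 c
  obtain ⟨ξ, hξJ, hξ⟩ : ∃ ξ ∈ J3, ¬ (ξ < γ ∨ ∃ i ∈ T, i ∉ S ∧ a ξ i < γ) := by
    by_contra h
    push Not at h
    have hsub : J3 ⊆ {ξ ∈ J3 | ξ < γ ∨ ∃ i ∈ T, i ∉ S ∧ a ξ i < γ} := by
      intro ξ hξ
      exact ⟨hξ, h ξ hξ⟩
    exact hρ (hJsmall.mono hsub)
  push Not at hξ
  have hinf := hx.many γ (a ξ) b (T.filter fun i => i ∉ S)
    (fun i hi j hj h => hinj ξ (hJ1J (hJ2J hξJ.1)) (by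
        have := Finset.mem_filter.1 (by exact_mod_cast hi : i ∈ T.filter fun i => i ∉ S)
        exact_mod_cast this.1) (by
        have := Finset.mem_filter.1 (by exact_mod_cast hj : j ∈ T.filter fun i => i ∉ S)
        exact_mod_cast this.1) h)
    (fun i hi => hξ.2 i (Finset.mem_filter.1 hi).1 (Finset.mem_filter.1 hi).2)
    (fun i _ => hγ _ (Or.inr ⟨i, rfl⟩))
    (by
      intro i hi
      rw [hb i]
      refine ⟨fun k => ?_, ?_⟩
      · refine ⟨x (a (η k) i), ?_⟩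
        exact (hsat (η k) (hJ1J (hJ2J (hηJ k).1)) i (Finset.mem_filter.1 hi).1).mono
          (Finset.filter_subset _ _)
      · intro k l hkl p hp q hq hpq
        have hp' := Finset.mem_filter.1 hp
        have hq' := Finset.mem_filter.1 hq
        apply hp'.2
        have hne : η k ≠ η l := fun h => hkl (hηinj h)
        refine hΔ (η k) (hηJ k).1 (η l) (hηJ l).1 hne p.1
          (hDmem _ i (Finset.mem_filter.1 hi).1 p hp'.1) ?_
        rw [hpq]
        exact hDmem _ i (Finset.mem_filter.1 hi).1 q hq'.1)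
    (by
      intro i _ k p hp
      rw [hb i] at hp
      refine hγ p.1 (Or.inl (Or.inr ?_))
      simp only [mem_iUnion]
      exact ⟨i, k, p, hp, rfl⟩)
  obtain ⟨k, hk⟩ := hinf.nonempty
  refine ⟨η k, hJ1J (hJ2J (hηJ k).1), ξ, hJ1J (hJ2J hξJ.1),
    lt_of_lt_of_le (hγ _ (Or.inl (Or.inl ⟨k, rfl⟩))) hξ.1, ?_⟩
  intro i hi
  by_cases hiS : i ∈ S
  · obtain ⟨c, hcst⟩ := hconst i hiS
    rw [hcst ξ (hJ2J hξJ.1), ← hcst (η k) (hJ2J (hηJ k).1)]
    exact hsat (η k) (hJ1J (hJ2J (hηJ k).1)) i hi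
  · intro p hp
    by_cases hpR : p.1 ∈ R
    · exact hsat ξ (hJ1J (hJ2J hξJ.1)) i hi p (hroot _ (hηJ k) ξ hξJ i hi p hp hpR)
    · have h1 : Sat (e (b i) k) (x (a ξ i)) := hk i (Finset.mem_filter.2 ⟨hi, hiS⟩)
      rw [hb i] at h1
      exact h1 p (Finset.mem_filter.2 ⟨hp, hpR⟩)

end Pool.Agent.H916R3.HFC
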