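import Mathlib
import Pool.Agent.H916R3.HFC.Core

set_option autoImplicit false

/-!
# The space of the generic family: `C_p(X)` is hereditarily separable, not sequentially separable
-/

namespace Pool.Agent.H916R3.HFC

open Set Topology Filter

variable {I : Type}

/-- The subspace of `2^I` of the points of the family. -/
abbrev Sp (x : I → I → Bool) : Type := Set.range x

/-- The point number `α`. -/
def pt (x : I → I → Bool) (α : I) : Sp x := ⟨x α, α, rfl⟩

theorem exists_sat_nhds {x : I → I → Bool} {U : Set (Sp x)} (hU : IsOpen U) {y : Sp x}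
    (hy : y ∈ U) : ∃ σ : Fp I, Sat σ y.1 ∧ ∀ z : Sp x, Sat σ z.1 → z ∈ U := by
  obtain ⟨V, hV, rfl⟩ := isOpen_induced_iff.1 hU
  obtain ⟨τ, h1, h2⟩ := exists_sat_of_open hV (show y.1 ∈ V from hy)
  exact ⟨τ, h1, fun z hz => h2 z.1 hz⟩

/-- A point outside the closure of a set of functions is separated from it by finitely many
points. -/
theorem exists_sep {X : Type} [TopologicalSpace X] (A : Set {f : X → ℝ // Continuous f})
    (f : {f : X → ℝ // Continuous f}) (hf : f ∉ closure A) :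
    ∃ (F : Finset X) (m : ℕ), ∀ g ∈ A, ∃ y ∈ F, 1 / ((m : ℝ) + 1) ≤ |g.1 y - f.1 y| := by
  classical
  rw [mem_closure_iff] at hf
  push Not at hf
  obtain ⟨O, hO, hfO, hOA⟩ := hf
  obtain ⟨V, hV, rfl⟩ := isOpen_induced_iff.1 hO
  obtain ⟨F, u, hu, hsub⟩ := isOpen_pi_iff.1 hV f.1 hfO
  have hm : ∀ y : X, ∃ m : ℕ, y ∈ F → ∀ t : ℝ, |t - f.1 y| < 1 / ((m : ℝ) + 1) → t ∈ u y := by
    intro y
    by_cases hy : y ∈ F
    · obtain ⟨ε, hε, hball⟩ := Metric.isOpen_iff.1 (hu y hy).1 (f.1 y) (hu y hy).2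
      obtain ⟨m, hm⟩ := exists_nat_one_div_lt hε
      refine ⟨m, fun _ t ht => hball ?_⟩
      rw [Metric.mem_ball, Real.dist_eq]
      exact ht.trans hm
    · exact ⟨0, fun h => absurd h hy⟩
  choose m hm using hm
  refine ⟨F, F.sup m, fun g hg => ?_⟩
  by_contra hcon
  push Not at hcon
  have hgV : g ∈ Subtype.val ⁻¹' V := by
    apply hsub
    intro y hy
    refine hm y hy (g.1 y) (lt_of_lt_of_le (hcon y hy) ?_)
    have h1 : (m y : ℝ) ≤ ((F.sup m : ℕ) : ℝ) := by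
      exact_mod_cast Finset.le_sup (f := m) hy
    have h2 : (0 : ℝ) < (m y : ℝ) + 1 := by positivity
    exact one_div_le_one_div_of_le h2 (by linarith)
  have : g ∈ Subtype.val ⁻¹' V ∩ A := ⟨hgV, hg⟩
  rw [hOA] at this
  exact this

variable [LinearOrder I] [WellFoundedLT I]

theorem Fam.hs {e : I → ℕ → Fp I} {x : I → I → Bool} (hx : Fam e x)
    (hc : ∀ a : I, (Set.Iio a).Countable) (hI : ¬ (Set.univ : Set I).Countable)
    (he : ∀ s : ℕ → Fp I, ∃ β, e β = s) (S : Set {f : Sp x → ℝ // Continuous f}) :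
    ∃ c ⊆ S, c.Countable ∧ S ⊆ closure c := by
  classical
  by_contra hcon
  push Not at hcon
  obtain ⟨f, hf⟩ := exists_seq (I := I)
    (fun (C : Set {f : Sp x → ℝ // Continuous f}) g => g ∈ S ∧ g ∉ closure (C ∩ S)) hc (by
      intro C hC
      have h1 := hcon (C ∩ S) Set.inter_subset_right (hC.mono Set.inter_subset_left)
      rw [Set.not_subset] at h1
      obtain ⟨g, hg1, hg2⟩ := h1
      exact ⟨g, hg1, hg2⟩)
  choose F m hFm using fun ξ => exists_sep _ (f ξ) (hf ξ).2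
  have hidx : ∀ y : Sp x, ∃ α, pt x α = y := by
    rintro ⟨_, α, rfl⟩
    exact ⟨α, rfl⟩
  choose idx hidx using hidx
  let a : I → ℕ → I := fun ξ i => if h : i < (F ξ).card then
    idx ((F ξ).equivFin.symm ⟨i, h⟩).1 else ξ
  have hq : ∀ (ξ : I) (i : ℕ), ∃ q : ℚ, |(f ξ).1 (pt x (a ξ i)) - q| < 1 / ((m ξ : ℝ) + 1) / 4 := by
    intro ξ i
    have : (0 : ℝ) < 1 / ((m ξ : ℝ) + 1) / 4 := by positivity
    exact exists_rat_near _ this
  choose q hq using hq
  have hσ : ∀ (ξ : I) (i : ℕ), ∃ σ : Fp I, Sat σ (x (a ξ i)) ∧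
      ∀ z : Sp x, Sat σ z.1 → |(f ξ).1 z - q ξ i| < 1 / ((m ξ : ℝ) + 1) / 4 := by
    intro ξ i
    have hop : IsOpen {z : Sp x | |(f ξ).1 z - q ξ i| < 1 / ((m ξ : ℝ) + 1) / 4} := by
      have hcont : Continuous fun z : Sp x => |(f ξ).1 z - q ξ i| :=
        ((f ξ).2.sub continuous_const).abs
      exact isOpen_lt hcont continuous_const
    obtain ⟨σ, h1, h2⟩ := exists_sat_nhds hop (y := pt x (a ξ i)) (hq ξ i)
    exact ⟨σ, h1, h2⟩
  choose σ hσ1 hσ2 using hσ
  obtain ⟨⟨m0, n0, l0⟩, hJ⟩ := uncountable_fiber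
    (fun ξ : I => (m ξ, (F ξ).card, (List.range (F ξ).card).map (q ξ))) Set.univ hI
  obtain ⟨η, hη, ξ, hξ, hlt, hsat⟩ := hx.core hc hI he (Finset.range n0) a σ _ hJ (by
    intro ξ hξ i hi j hj hij
    have hn : (F ξ).card = n0 := by
      have := hξ.2
      simp only [Prod.mk.injEq] at this
      exact this.2.1
    have hi' : i < (F ξ).card := by
      have : i ∈ Finset.range n0 := by exact_mod_cast hi
      rw [hn]; exact Finset.mem_range.1 this
    have hj' : j < (F ξ).card := by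
      have : j ∈ Finset.range n0 := by exact_mod_cast hj
      rw [hn]; exact Finset.mem_range.1 this
    simp only [a, hi', hj', dif_pos] at hij
    have h1 := congrArg (pt x) hij
    rw [hidx, hidx] at h1
    have h2 := (F ξ).equivFin.symm.injective (Subtype.ext h1)
    exact congrArg Fin.val h2) (fun ξ _ i _ => hσ1 ξ i)
  have hcη := hη.2
  have hcξ := hξ.2
  simp only [Prod.mk.injEq] at hcη hcξ
  have hm : m η = m ξ := hcη.1.trans hcξ.1.symm
  have hn : (F ξ).card = n0 := hcξ.2.1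
  have hn' : (F η).card = n0 := hcη.2.1
  have hql : ∀ i < n0, q η i = q ξ i := by
    have h1 : (List.range n0).map (q η) = (List.range n0).map (q ξ) := by
      have h2 := hcη.2.2.trans hcξ.2.2.symm
      rwa [hn, hn'] at h2
    intro i hi
    exact (List.map_inj_left.1 h1) i (List.mem_range.2 hi)
  obtain ⟨y, hyF, hy⟩ := hFm ξ (f η) ⟨⟨η, hlt, rfl⟩, (hf η).1⟩
  -- the index of `y`
  have hi0 := ((F ξ).equivFin ⟨y, hyF⟩).2
  set i : ℕ := ((F ξ).equivFin ⟨y, hyF⟩).1 with hi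
  have hai : pt x (a ξ i) = y := by
    simp only [a, hi0, dif_pos]
    rw [hidx]
    have : (⟨i, hi0⟩ : Fin (F ξ).card) = (F ξ).equivFin ⟨y, hyF⟩ := rfl
    rw [this, Equiv.symm_apply_apply]
  have hin : i < n0 := hn ▸ hi0
  have h1 : |(f η).1 y - q η i| < 1 / ((m η : ℝ) + 1) / 4 := by
    have h3 := hσ2 η i (pt x (a ξ i)) (hsat i (Finset.mem_range.2 hin))
    rwa [hai] at h3
  have h2 : |(f ξ).1 y - q ξ i| < 1 / ((m ξ : ℝ) + 1) / 4 := by
    have h3 := hq ξ i
    rwa [hai] at h3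
  rw [hql i hin, hm] at h1
  have hpos : (0 : ℝ) < 1 / ((m ξ : ℝ) + 1) := by positivity
  have h4 : |(f η).1 y - (f ξ).1 y| ≤ |(f η).1 y - q ξ i| + |(f ξ).1 y - q ξ i| := by
    have : (f η).1 y - (f ξ).1 y = ((f η).1 y - q ξ i) - ((f ξ).1 y - q ξ i) := by ring
    rw [this]
    exact abs_sub _ _
  linarith

/-- An open set of the space is covered by countably many basic open subsets. -/
theorem Fam.lind {e : I → ℕ → Fp I} {x : I → I → Bool} (hx : Fam e x)
    (hc : ∀ a : I, (Set.Iio a).Countable) (hI : ¬ (Set.univ : Set I).Countable)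
    (he : ∀ s : ℕ → Fp I, ∃ β, e β = s) {U : Set (Sp x)} (hU : IsOpen U) :
    ∃ 𝒮 : Set (Fp I), 𝒮.Countable ∧ (∀ σ ∈ 𝒮, ∀ z : Sp x, Sat σ z.1 → z ∈ U) ∧
      ∀ α, pt x α ∈ U → ∃ σ ∈ 𝒮, Sat σ (x α) := by
  classical
  by_contra hcon
  push Not at hcon
  obtain ⟨g, hg⟩ := exists_seq (I := I)
    (fun (C : Set (I × Fp I)) (t : I × Fp I) => Sat t.2 (x t.1) ∧
      (∀ z : Sp x, Sat t.2 z.1 → z ∈ U) ∧ ∀ c ∈ C, (∀ z : Sp x, Sat c.2 z.1 → z ∈ U) →
        ¬ Sat c.2 (x t.1)) hc (by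
      intro C hC
      obtain ⟨α, hα, hno⟩ := hcon {σ | σ ∈ Prod.snd '' C ∧ ∀ z : Sp x, Sat σ z.1 → z ∈ U}
        ((hC.image Prod.snd).mono fun σ hσ => hσ.1) (fun σ hσ => hσ.2)
      obtain ⟨σ, hσ1, hσ2⟩ := exists_sat_nhds hU hα
      refine ⟨(α, σ), hσ1, hσ2, ?_⟩
      intro c hcC hcU
      exact hno c.2 ⟨⟨c, hcC, rfl⟩, hcU⟩)
  obtain ⟨η, _, ξ, _, hlt, hsat⟩ := hx.core hc hI he {0} (fun ξ _ => (g ξ).1)
    (fun ξ _ => (g ξ).2) Set.univ hI (by
      intro ξ _ i hi j hj _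
      have hi' : i = 0 := by simpa using hi
      have hj' : j = 0 := by simpa using hj
      rw [hi', hj']) (fun ξ _ i _ => (hg ξ).1)
  exact (hg ξ).2.2 (g η) ⟨η, hlt, rfl⟩ (hg η).2.1 (hsat 0 (Finset.mem_singleton_self 0))

/-- The coordinate function number `δ` on the space, with values in `{0, 1}`. -/
def coord (x : I → I → Bool) (δ : I) : {f : Sp x → ℝ // Continuous f} :=
  ⟨fun z => if z.1 δ then 1 else 0, by
    have h1 : Continuous fun z : Sp x => z.1 δ := (continuous_apply δ).comp continuous_subtype_val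
    exact (continuous_of_discreteTopology (f := fun b : Bool => if b then (1 : ℝ) else 0)).comp h1⟩

theorem Fam.not_seq {e : I → ℕ → Fp I} {x : I → I → Bool} (hx : Fam e x)
    (hc : ∀ a : I, (Set.Iio a).Countable) (hI : ¬ (Set.univ : Set I).Countable)
    (he : ∀ (s : ℕ → Fp I) (γ : I), ∃ β, γ < β ∧ e β = s)
    (D : Set {f : Sp x → ℝ // Continuous f}) (hD : D.Countable) :
    ∃ δ : I, ∀ u : ℕ → {f : Sp x → ℝ // Continuous f},
      (∀ n, u n ∈ D) → ¬ Tendsto u atTop (𝓝 (coord x δ)) := by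
  classical
  have hIne : Nonempty I := by
    by_contra h
    rw [not_nonempty_iff] at h
    exact hI (Set.to_countable _)
  have he' : ∀ s : ℕ → Fp I, ∃ β, e β = s := fun s => by
    obtain ⟨β, _, h⟩ := he s hIne.some
    exact ⟨β, h⟩
  -- every `d < 1/2` is witnessed by coordinates in a countable set
  have hS : ∀ d : {f : Sp x → ℝ // Continuous f}, ∃ 𝒮 : Set (Fp I), 𝒮.Countable ∧
      (∀ σ ∈ 𝒮, ∀ z : Sp x, Sat σ z.1 → d.1 z < 1 / 2) ∧
      ∀ α, d.1 (pt x α) < 1 / 2 → ∃ σ ∈ 𝒮, Sat σ (x α) := by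
    intro d
    exact hx.lind hc hI he' (U := {z | d.1 z < 1 / 2}) (isOpen_lt d.2 continuous_const)
  choose 𝒮 hS1 hS2 hS3 using hS
  let A : Set I := ⋃ d ∈ D, ⋃ σ ∈ 𝒮 d, Prod.fst '' (↑σ : Set (I × Bool))
  have hA : A.Countable := hD.biUnion fun d _ => (hS1 d).biUnion fun σ _ =>
    (σ.countable_toSet).image _
  let T : Set (Fp I) := {τ | ∀ p ∈ τ, p.1 ∈ A}
  have hT : T.Countable := by
    have hAc : Countable A := hA
    have : T ⊆ Set.range fun t : Finset (A × Bool) => t.image fun p => (p.1.1, p.2) := by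
      intro τ hτ
      refine ⟨τ.attach.image fun p => (⟨p.1.1, hτ p.1 p.2⟩, p.1.2), ?_⟩
      ext p
      simp only [Finset.mem_image, Finset.mem_attach, true_and, Subtype.exists]
      constructor
      · rintro ⟨_, ⟨q, hq, rfl⟩, rfl⟩
        exact hq
      · intro hp
        exact ⟨_, ⟨p, hp, rfl⟩, rfl⟩
    exact (Set.countable_range _).mono this
  -- indices `β` with `x β` extending `τ`
  have hβ : ∀ τ : Fp I, ∃ β : I, Cons τ → Sat τ (x β) := by
    intro τ
    obtain ⟨γ, hγ⟩ := bdd_of_countable hc hI ((τ.countable_toSet).image Prod.fst)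
    obtain ⟨β, hβ1, hβ2⟩ := he (fun _ => τ) γ
    refine ⟨β, fun hcs => ?_⟩
    have := hx.three β (by rw [hβ2]; exact hcs) (by
      intro p hp
      rw [hβ2] at hp
      exact (hγ _ ⟨p, hp, rfl⟩).trans hβ1)
    rwa [hβ2] at this
  choose β hβ using hβ
  obtain ⟨δ, hδ⟩ := bdd_of_countable hc hI (hT.image β)
  let f : {f : Sp x → ℝ // Continuous f} := coord x δ
  refine ⟨δ, fun u hu htend => ?_⟩
  have hpt : ∀ z : Sp x, Tendsto (fun k => (u k).1 z) atTop (𝓝 (f.1 z)) := by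
    intro z
    have h1 : Continuous fun g : {f : Sp x → ℝ // Continuous f} => g.1 z :=
      (continuous_apply z).comp continuous_subtype_val
    exact (h1.tendsto f).comp htend
  -- the dense families
  let 𝒰 : ℕ → Set (Fp I) := fun m => {σ | σ ∈ T ∧ ∀ α, Sat σ (x α) →
    ∃ k, m ≤ k ∧ (u k).1 (pt x α) < 1 / 2}
  have h𝒰d : ∀ m, ∀ τ : Fp I, Cons τ → ∃ σ ∈ 𝒰 m, ∃ y : I → Bool, Sat τ y ∧ Sat σ y := by
    intro m τ hτ
    let τA : Fp I := τ.filter fun p => p.1 ∈ A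
    have hτA : τA ∈ T := fun p hp => (Finset.mem_filter.1 hp).2
    obtain ⟨y, hy⟩ := hτ
    have hcs : Cons τA := ⟨y, hy.mono (Finset.filter_subset _ _)⟩
    have hsat := hβ τA hcs
    have hlt : β τA < δ := hδ _ ⟨τA, hτA, rfl⟩
    have hf0 : f.1 (pt x (β τA)) = 0 := by
      have h0 : x (β τA) δ = false := hx.four _ _ hlt.le
      simp [f, pt, coord, h0]
    have hev : ∀ᶠ k in atTop, (u k).1 (pt x (β τA)) < 1 / 2 := by
      have := hpt (pt x (β τA))
      rw [hf0] at this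
      exact this.eventually_lt_const (by norm_num)
    obtain ⟨k, hk1, hk2⟩ := (hev.and (eventually_ge_atTop m)).exists
    obtain ⟨σ, hσ1, hσ2⟩ := hS3 (u k) (β τA) hk1
    have hσT : σ ∈ T := by
      intro p hp
      simp only [A, mem_iUnion]
      exact ⟨u k, hu k, σ, hσ1, p, hp, rfl⟩
    refine ⟨σ, ⟨hσT, fun α hα => ⟨k, hk2, hS2 (u k) σ hσ1 (pt x α) hα⟩⟩,
      fun i => if i ∈ A then x (β τA) i else y i, ?_, ?_⟩
    · intro p hp
      by_cases hpA : p.1 ∈ A
      · simp only [hpA, if_true]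
        exact hsat p (Finset.mem_filter.2 ⟨hp, hpA⟩)
      · simp only [hpA, if_false]
        exact hy p hp
    · intro p hp
      have hpA : p.1 ∈ A := hσT p hp
      simp only [hpA, if_true]
      exact hσ2 p hp
  have hsm : ∀ m, ∃ s : ℕ → Fp I, Set.range s = 𝒰 m := by
    intro m
    have h1 : (𝒰 m).Countable := hT.mono fun σ hσ => hσ.1
    have h2 : (𝒰 m).Nonempty := by
      obtain ⟨σ, hσ, _⟩ := h𝒰d m ∅ ⟨fun _ => false, fun p hp => absurd hp (Finset.notMem_empty p)⟩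
      exact ⟨σ, hσ⟩
    obtain ⟨s, hs⟩ := h1.exists_eq_range h2
    exact ⟨s, hs.symm⟩
  choose s hs using hsm
  choose b hb using fun m => he' (s m)
  obtain ⟨γ, hγ⟩ := bdd_of_countable hc hI ((hA.union (Set.countable_range b)).union
    (Set.countable_singleton δ))
  obtain ⟨α, hα1, hα2⟩ := he (fun _ => {(δ, true)}) γ
  have hδγ : δ < γ := hγ δ (Or.inr rfl)
  have hxα : x α δ = true := by
    have := hx.three α (by
      rw [hα2]
      exact ⟨fun _ => true, fun p hp => by rw [Finset.mem_singleton.1 hp]⟩) (by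
      intro p hp
      rw [hα2] at hp
      rw [Finset.mem_singleton.1 hp]
      exact hδγ.trans hα1)
    rw [hα2] at this
    exact this (δ, true) (Finset.mem_singleton_self _)
  have hf1 : f.1 (pt x α) = 1 := by simp [f, pt, coord, hxα]
  have hev : ∀ᶠ k in atTop, 1 / 2 < (u k).1 (pt x α) := by
    have := hpt (pt x α)
    rw [hf1] at this
    exact this.eventually_const_lt (by norm_num)
  obtain ⟨m, hm⟩ := eventually_atTop.1 hev
  have hden : DenseSeq (e (b m)) := by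
    rw [hb m]
    intro τ hτ
    obtain ⟨σ, hσ, y, hy1, hy2⟩ := h𝒰d m τ hτ
    rw [← hs m] at hσ
    obtain ⟨k, rfl⟩ := hσ
    exact ⟨k, y, hy1, hy2⟩
  obtain ⟨k, hk⟩ := hx.two α (b m) ((hγ _ (Or.inl (Or.inr ⟨m, rfl⟩))).trans hα1) hden (by
    intro k p hp
    rw [hb m] at hp
    have h1 : s m k ∈ 𝒰 m := hs m ▸ ⟨k, rfl⟩
    exact (hγ _ (Or.inl (Or.inl (h1.1 p hp)))).trans hα1)
  rw [hb m] at hk
  have h1 : s m k ∈ 𝒰 m := hs m ▸ ⟨k, rfl⟩
  obtain ⟨k', hk'1, hk'2⟩ := h1.2 α hk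
  have := hm k' hk'1
  linarith

end Pool.Agent.H916R3.HFC
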