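import Mathlib
import Pool.Agent.H916R3.HFC.Space

set_option autoImplicit false

/-!
# Under CH there is a hereditarily separable, not sequentially separable `C_p(X)`
-/

namespace Pool.Agent.H916R3.HFC

open Set Topology Filter Cardinal

/-- The index set, of order type `ω₁`. -/
abbrev W1 : Type := (Cardinal.aleph.{0} 1).ord.ToType

theorem mk_W1 : #W1 = Cardinal.aleph.{0} 1 := Cardinal.mk_ord_toType _

theorem W1_Iio (a : W1) : (Set.Iio a).Countable := by
  rw [← Cardinal.le_aleph0_iff_set_countable, ← Cardinal.lt_aleph_one_iff]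
  have h := Cardinal.mk_Iio_lt a (by simp)
  rwa [mk_W1] at h

theorem W1_univ : ¬ (Set.univ : Set W1).Countable := by
  rw [Set.countable_univ_iff, ← Cardinal.mk_le_aleph0_iff, mk_W1, not_le]
  exact Cardinal.aleph0_lt_aleph_one

theorem mk_seq_le (hCH : Cardinal.aleph.{0} 1 = Cardinal.continuum) :
    #(ℕ → Fp W1) ≤ Cardinal.aleph.{0} 1 := by
  have h1 : #(Fp W1) ≤ Cardinal.continuum := by
    have h2 : #(Fp W1) ≤ #(Finset (W1 × Bool)) := le_refl _
    refine h2.trans ?_
    have hinf : Infinite W1 := by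
      rw [Cardinal.infinite_iff, mk_W1]
      exact Cardinal.aleph0_lt_aleph_one.le
    rw [Cardinal.mk_finset_of_infinite, Cardinal.mk_prod, Cardinal.lift_id, Cardinal.lift_id,
      mk_W1, hCH]
    refine (Cardinal.mul_le_max _ _).trans ?_
    have h3 : (2 : Cardinal.{0}) ≤ Cardinal.continuum := (Cardinal.nat_lt_continuum 2).le
    simp [Cardinal.aleph0_le_continuum, h3]
  calc #(ℕ → Fp W1) = #(Fp W1) ^ #ℕ := by simp
    _ ≤ Cardinal.continuum ^ #ℕ := Cardinal.power_le_power_right h1
    _ = Cardinal.continuum := by rw [Cardinal.mk_nat, Cardinal.continuum_power_aleph0]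
    _ = Cardinal.aleph.{0} 1 := hCH.symm

theorem exists_enum (hCH : Cardinal.aleph.{0} 1 = Cardinal.continuum) :
    ∃ e : W1 → ℕ → Fp W1, ∀ (s : ℕ → Fp W1) (γ : W1), ∃ β, γ < β ∧ e β = s := by
  have hle : #(W1 × (ℕ → Fp W1)) ≤ #W1 := by
    rw [Cardinal.mk_prod, Cardinal.lift_id, Cardinal.lift_id, mk_W1]
    refine (mul_le_mul' (le_refl _) (mk_seq_le hCH)).trans ?_
    rw [Cardinal.mul_eq_self Cardinal.aleph0_lt_aleph_one.le]
  obtain ⟨g⟩ := hle
  have hne : Nonempty (W1 × (ℕ → Fp W1)) := by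
    have : Nonempty W1 := by
      rw [← Cardinal.mk_ne_zero_iff, mk_W1]
      exact (Cardinal.aleph0_lt_aleph_one.pos).ne'
    exact ⟨(this.some, fun _ => ∅)⟩
  obtain ⟨e, he⟩ : ∃ e : W1 → W1 × (ℕ → Fp W1), Function.LeftInverse e g :=
    ⟨Function.invFun g, Function.leftInverse_invFun g.injective⟩
  refine ⟨fun β => (e β).2, fun s γ => ?_⟩
  by_contra hcon
  push Not at hcon
  -- the points `g (i, s)` are all below `γ`
  apply W1_univ
  have hsub : Set.range (fun i : W1 => g (i, s)) ⊆ Set.Iic γ := by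
    rintro _ ⟨i, rfl⟩
    rw [Set.mem_Iic]
    by_contra h
    exact hcon (g (i, s)) (not_le.1 h) (by
      have := he (i, s)
      rw [this])
  have hcount : (Set.range (fun i : W1 => g (i, s))).Countable :=
    (countable_Iic W1_Iio γ).mono hsub
  have hinj : Function.Injective (fun i : W1 => g (i, s)) := by
    intro i j h
    have := g.injective h
    exact congrArg Prod.fst this
  have h3 := hcount.preimage hinj
  have h4 : (fun i : W1 => g (i, s)) ⁻¹' Set.range (fun i : W1 => g (i, s)) = Set.univ := by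
    ext i
    simp
  rwa [h4] at h3

/-- Under CH: a Tychonoff space whose `C_p` is hereditarily separable, and a set `S` of at most
`ℵ₁` continuous functions with values in `{0, 1}` not contained in the set of the limits of sequences
from any countable set of continuous functions. -/
theorem main (hCH : Cardinal.aleph.{0} 1 = Cardinal.continuum) :
    ∃ (X : Type) (_ : TopologicalSpace X) (_ : T35Space X)
      (S : Set {f : X → ℝ // Continuous f}),
      (∀ S : Set {f : X → ℝ // Continuous f}, ∃ c ⊆ S, c.Countable ∧ S ⊆ closure c) ∧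
      #S ≤ Cardinal.aleph.{0} 1 ∧ (∀ f ∈ S, ∀ y : X, f.1 y = 0 ∨ f.1 y = 1) ∧
      ∀ D : Set {f : X → ℝ // Continuous f}, D.Countable →
        ∃ f ∈ S, ∀ u : ℕ → {f : X → ℝ // Continuous f},
          (∀ n, u n ∈ D) → ¬ Tendsto u atTop (𝓝 f) := by
  obtain ⟨e, he⟩ := exists_enum hCH
  obtain ⟨x, hx⟩ := exists_fam W1_Iio e
  have hne : Nonempty W1 := by
    rw [← Cardinal.mk_ne_zero_iff, mk_W1]
    exact (Cardinal.aleph0_lt_aleph_one.pos).ne'
  have he' : ∀ s : ℕ → Fp W1, ∃ β, e β = s := fun s => by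
    obtain ⟨β, _, h⟩ := he s hne.some
    exact ⟨β, h⟩
  refine ⟨Sp x, inferInstance, inferInstance, Set.range (coord x), hx.hs W1_Iio W1_univ he',
    ?_, ?_, ?_⟩
  · exact Cardinal.mk_range_le.trans (le_of_eq mk_W1)
  · rintro _ ⟨δ, rfl⟩ y
    by_cases h : y.1 δ = true
    · right; simp [coord, h]
    · left; simp [coord, h]
  · intro D hD
    obtain ⟨δ, hδ⟩ := hx.not_seq W1_Iio W1_univ he D hD
    exact ⟨coord x δ, ⟨δ, rfl⟩, hδ⟩

end Pool.Agent.H916R3.HFC
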